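import Pool.Agent.Q222.WT.Defs

namespace Q222.WT

open Matrix

variable {σ : Type} {rk : σ → ℕ} {Q : Type}

/-- A one-node context: a node with a hole at child `i` (the value `c i` is ignored). -/
structure Step (σ : Type) (rk : σ → ℕ) where
  /-- the label -/
  a : σ
  /-- the position of the hole -/
  i : Fin (rk a)
  /-- the other children -/
  c : Fin (rk a) → Tree σ rk

/-- Number of nodes of a one-node context (hole excluded). -/
def Step.size (s : Step σ rk) : ℕ := 1 + ∑ j ∈ Finset.univ.erase s.i, (s.c j).size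

/-- Plug a tree into the hole. -/
def Step.fill (s : Step σ rk) (t : Tree σ rk) : Tree σ rk := .node s.a (Function.update s.c s.i t)

theorem Step.size_fill (s : Step σ rk) (t : Tree σ rk) : (s.fill t).size = s.size + t.size := by
  simp only [Step.fill, Tree.size, Step.size]
  have h1 : ∑ j ∈ Finset.univ.erase s.i, (Function.update s.c s.i t j).size =
      ∑ j ∈ Finset.univ.erase s.i, (s.c j).size := by
    refine Finset.sum_congr rfl fun j hj => ?_
    rw [Function.update_of_ne (Finset.ne_of_mem_erase hj)]
  rw [← Finset.add_sum_erase _ _ (Finset.mem_univ s.i), Function.update_self, h1]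
  omega

theorem Tree.size_pos (t : Tree σ rk) : 0 < t.size := by
  cases t; simp only [Tree.size]; omega

/-- Size of a context. -/
def csize (l : List (Step σ rk)) : ℕ := (l.map Step.size).sum

/-- Plug a tree into a context. -/
def cfill (l : List (Step σ rk)) (t : Tree σ rk) : Tree σ rk := l.foldr Step.fill t

theorem csize_append (l m : List (Step σ rk)) : csize (l ++ m) = csize l + csize m := by
  simp [csize]

theorem size_cfill (l : List (Step σ rk)) (t : Tree σ rk) :
    (cfill l t).size = csize l + t.size := by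
  induction l with
  | nil => simp [cfill, csize]
  | cons s l ih =>
    have : cfill (s :: l) t = s.fill (cfill l t) := rfl
    rw [this, Step.size_fill, ih]
    simp [csize, add_assoc]

variable [Fintype Q]

open Classical in
/-- Transfer matrix of a one-node context. -/
noncomputable def WTA.mat (A : WTA σ rk Q) (s : Step σ rk) : Matrix Q Q ℕ := fun p q =>
  ∑ f : Fin (rk s.a) → Q, if f s.i = q then
    A.μ s.a f p * ∏ j ∈ Finset.univ.erase s.i, A.val (s.c j) (f j) else 0

open Classical in
/-- Transfer matrix of a context. -/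
noncomputable def WTA.cmat (A : WTA σ rk Q) (l : List (Step σ rk)) : Matrix Q Q ℕ :=
  (l.map A.mat).prod

variable (A : WTA σ rk Q)

theorem WTA.val_fill (s : Step σ rk) (t : Tree σ rk) : A.val (s.fill t) = A.mat s *ᵥ A.val t := by
  classical
  funext p
  simp only [Step.fill, WTA.val, Matrix.mulVec, dotProduct, WTA.mat, Finset.sum_mul]
  rw [Finset.sum_comm]
  refine Finset.sum_congr rfl fun f _ => ?_
  rw [Finset.sum_eq_single (f s.i)]
  · rw [if_pos rfl, ← Finset.mul_prod_erase _ _ (Finset.mem_univ s.i), Function.update_self]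
    have : ∏ j ∈ Finset.univ.erase s.i, A.val (Function.update s.c s.i t j) (f j) =
        ∏ j ∈ Finset.univ.erase s.i, A.val (s.c j) (f j) := by
      refine Finset.prod_congr rfl fun j hj => ?_
      rw [Function.update_of_ne (Finset.ne_of_mem_erase hj)]
    rw [this]
    ring
  · intro q _ hq
    rw [if_neg (Ne.symm hq), zero_mul]
  · intro h; exact absurd (Finset.mem_univ _) h

open Classical in
theorem WTA.cmat_nil : A.cmat [] = 1 := rfl

theorem WTA.cmat_append (l m : List (Step σ rk)) : A.cmat (l ++ m) = A.cmat l * A.cmat m := by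
  classical
  simp [WTA.cmat]

theorem WTA.val_cfill (l : List (Step σ rk)) (t : Tree σ rk) :
    A.val (cfill l t) = A.cmat l *ᵥ A.val t := by
  classical
  induction l with
  | nil => simp [cfill, WTA.cmat]
  | cons s l ih =>
    have h1 : cfill (s :: l) t = s.fill (cfill l t) := rfl
    have h2 : A.cmat (s :: l) = A.mat s * A.cmat l := by simp [WTA.cmat]
    rw [h1, WTA.val_fill, ih, h2, Matrix.mulVec_mulVec]

theorem WTA.cmat_le (l m : List (Step σ rk)) (p q r : Q) :
    A.cmat l p q * A.cmat m q r ≤ A.cmat (l ++ m) p r := by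
  rw [WTA.cmat_append, Matrix.mul_apply]
  exact Finset.single_le_sum (f := fun q => A.cmat l p q * A.cmat m q r)
    (fun _ _ => Nat.zero_le _) (Finset.mem_univ q)

theorem WTA.val_cfill_le (l : List (Step σ rk)) (t : Tree σ rk) (p q : Q) :
    A.cmat l p q * A.val t q ≤ A.val (cfill l t) p := by
  rw [WTA.val_cfill]
  exact Finset.single_le_sum (f := fun q => A.cmat l p q * A.val t q)
    (fun _ _ => Nat.zero_le _) (Finset.mem_univ q)

/-- `k`-fold repetition of a context. -/
def crep (l : List (Step σ rk)) : ℕ → List (Step σ rk)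
  | 0 => []
  | k + 1 => l ++ crep l k

theorem csize_crep (l : List (Step σ rk)) (k : ℕ) : csize (crep l k) = k * csize l := by
  induction k with
  | zero => simp [crep, csize]
  | succ k ih => rw [crep, csize_append, ih]; ring

theorem WTA.cmat_crep (l : List (Step σ rk)) (k : ℕ) (p : Q) :
    (A.cmat l p p) ^ k ≤ A.cmat (crep l k) p p := by
  classical
  induction k with
  | zero => simp [crep, WTA.cmat]
  | succ k ih =>
    rw [pow_succ']
    exact le_trans (Nat.mul_le_mul_left _ ih) (A.cmat_le _ _ _ _ _)

/-- Exponential bound. -/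
theorem WTA.val_le [Fintype σ] : ∃ C : ℕ, 1 ≤ C ∧ ∀ t q, A.val t q ≤ C ^ t.size := by
  refine ⟨1 + ∑ a : σ, ∑ f : Fin (rk a) → Q, ∑ q, A.μ a f q, by omega, fun t => ?_⟩
  set C := 1 + ∑ a : σ, ∑ f : Fin (rk a) → Q, ∑ q, A.μ a f q with hC
  induction t with
  | node a c ih =>
    intro q
    simp only [WTA.val, Tree.size, pow_add, pow_one]
    have h1 : ∀ f : Fin (rk a) → Q, A.μ a f q * ∏ i, A.val (c i) (f i) ≤
        A.μ a f q * C ^ (∑ i, (c i).size) := by
      intro f
      apply Nat.mul_le_mul_left
      rw [← Finset.prod_pow_eq_pow_sum]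
      exact Finset.prod_le_prod' fun i _ => ih i (f i)
    refine le_trans (Finset.sum_le_sum fun f _ => h1 f) ?_
    rw [← Finset.sum_mul]
    apply Nat.mul_le_mul_right
    have h2 : ∑ f : Fin (rk a) → Q, A.μ a f q ≤ ∑ f : Fin (rk a) → Q, ∑ q, A.μ a f q :=
      Finset.sum_le_sum fun f _ => Finset.single_le_sum (f := fun q => A.μ a f q)
        (fun _ _ => Nat.zero_le _) (Finset.mem_univ q)
    have h3 : ∑ f : Fin (rk a) → Q, ∑ q, A.μ a f q ≤
        ∑ a : σ, ∑ f : Fin (rk a) → Q, ∑ q, A.μ a f q :=
      Finset.single_le_sum (f := fun a => ∑ f : Fin (rk a) → Q, ∑ q, A.μ a f q)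
        (fun _ _ => Nat.zero_le _) (Finset.mem_univ a)
    omega

end Q222.WT
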