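import Mathlib

namespace Q222.WT

/-- Finite trees over the ranked alphabet `(σ, rk)`. -/
inductive Tree (σ : Type) (rk : σ → ℕ) : Type
  | node (a : σ) (c : Fin (rk a) → Tree σ rk) : Tree σ rk

variable {σ : Type} {rk : σ → ℕ} {Q : Type}

/-- Number of nodes. -/
def Tree.size : Tree σ rk → ℕ
  | .node _ c => 1 + ∑ i, (c i).size

/-- A bottom-up `ℕ`-weighted tree automaton: transition weights and final weights. -/
structure WTA (σ : Type) (rk : σ → ℕ) (Q : Type) where
  /-- transition weights `μ_a(q_1, …, q_k; q)` -/
  μ : (a : σ) → (Fin (rk a) → Q) → Q → ℕ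
  /-- final weights -/
  fin : Q → ℕ

/-- A run on a tree: a state for the root together with runs on the subtrees, that is, a state for
every node. -/
def Run (Q : Type) : Tree σ rk → Type
  | .node a c => Q × ((i : Fin (rk a)) → Run Q (c i))

/-- Root state of a run. -/
def Run.root : (t : Tree σ rk) → Run Q t → Q
  | .node _ _, r => r.1

/-- There are finitely many runs. -/
noncomputable def Run.fintype [Fintype Q] : (t : Tree σ rk) → Fintype (Run Q t)
  | .node a c => by
    classical
    haveI := fun i => Run.fintype (c i)
    exact (inferInstance : Fintype (Q × ((i : Fin (rk a)) → Run Q (c i))))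

noncomputable instance [Fintype Q] (t : Tree σ rk) : Fintype (Run Q t) := Run.fintype t

/-- Weight of a run: product of the transition weights over all nodes. -/
def WTA.weight (A : WTA σ rk Q) : (t : Tree σ rk) → Run Q t → ℕ
  | .node a c, r => A.μ a (fun i => Run.root (c i) (r.2 i)) r.1 * ∏ i, A.weight (c i) (r.2 i)

/-- The value of a tree. -/
noncomputable def WTA.value [Fintype Q] (A : WTA σ rk Q) (t : Tree σ rk) : ℕ :=
  ∑ r : Run Q t, A.weight t r * A.fin (Run.root t r)

/-- The growth function `max {f t : |t| ≤ n}`. -/
noncomputable def growth (f : Tree σ rk → ℕ) (n : ℕ) : ℕ :=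
  sSup {m | ∃ t : Tree σ rk, t.size ≤ n ∧ f t = m}

/-- The vector of values by root state. -/
def WTA.val [Fintype Q] (A : WTA σ rk Q) : Tree σ rk → Q → ℕ
  | .node a c, q => ∑ f : Fin (rk a) → Q, A.μ a f q * ∏ i, A.val (c i) (f i)

open Classical in
theorem WTA.val_eq [Fintype Q] (A : WTA σ rk Q) (t : Tree σ rk) (q : Q) :
    A.val t q = ∑ r : Run Q t, if Run.root t r = q then A.weight t r else 0 := by
  induction t generalizing q with
  | node a c ih =>
    have h1 : A.val (.node a c) q = ∑ f : Fin (rk a) → Q, A.μ a f q *
        ∏ i, ∑ r : Run Q (c i), if Run.root (c i) r = f i then A.weight (c i) r else 0 := by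
      simp only [WTA.val]
      refine Finset.sum_congr rfl fun f _ => ?_
      congr 1
      exact Finset.prod_congr rfl fun i _ => ih i (f i)
    rw [h1]
    have h2 : ∀ f : Fin (rk a) → Q, (∏ i, ∑ r : Run Q (c i),
        if Run.root (c i) r = f i then A.weight (c i) r else 0) =
        ∑ g : (i : Fin (rk a)) → Run Q (c i), if (fun i => Run.root (c i) (g i)) = f then
          ∏ i, A.weight (c i) (g i) else 0 := by
      intro f
      rw [Finset.prod_univ_sum, Fintype.piFinset_univ]
      refine Finset.sum_congr rfl fun g _ => ?_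
      rw [Finset.prod_ite_zero]
      by_cases h : (fun i => Run.root (c i) (g i)) = f
      · rw [if_pos h, if_pos (fun i _ => congrFun h i)]
      · rw [if_neg h, if_neg (fun h' => h (funext fun i => h' i (Finset.mem_univ i)))]
    simp only [h2, Finset.mul_sum]
    rw [Finset.sum_comm]
    have h3 : ∀ g : (i : Fin (rk a)) → Run Q (c i),
        (∑ f : Fin (rk a) → Q, A.μ a f q * if (fun i => Run.root (c i) (g i)) = f then
          ∏ i, A.weight (c i) (g i) else 0) =
        A.μ a (fun i => Run.root (c i) (g i)) q * ∏ i, A.weight (c i) (g i) := by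
      intro g
      rw [Finset.sum_eq_single (fun i => Run.root (c i) (g i))]
      · rw [if_pos rfl]
      · intro f _ hf
        rw [if_neg (Ne.symm hf), mul_zero]
      · intro h; exact absurd (Finset.mem_univ _) h
    simp only [h3]
    have h4 : (∑ r : Run Q (Tree.node a c), if Run.root (.node a c) r = q then
        A.weight (.node a c) r else 0) =
        ∑ r : Q × ((i : Fin (rk a)) → Run Q (c i)), if r.1 = q then
          A.μ a (fun i => Run.root (c i) (r.2 i)) r.1 * ∏ i, A.weight (c i) (r.2 i) else 0 := by
      refine Finset.sum_congr ?_ fun r _ => rfl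
      ext r
      exact ⟨fun _ => Finset.mem_univ _, fun _ => Finset.mem_univ _⟩
    rw [h4, Fintype.sum_prod_type, Finset.sum_eq_single q]
    · refine Finset.sum_congr rfl fun g _ => ?_
      rw [if_pos rfl]
    · intro p _ hp
      refine Finset.sum_eq_zero fun g _ => ?_
      rw [if_neg hp]
    · intro h; exact absurd (Finset.mem_univ _) h

theorem WTA.value_eq [Fintype Q] (A : WTA σ rk Q) (t : Tree σ rk) :
    A.value t = ∑ q, A.fin q * A.val t q := by
  classical
  simp only [WTA.value, WTA.val_eq, Finset.mul_sum]
  rw [Finset.sum_comm]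
  refine Finset.sum_congr rfl fun r _ => ?_
  rw [Finset.sum_eq_single (Run.root t r)]
  · rw [if_pos rfl, mul_comm]
  · intro q _ hq
    rw [if_neg (Ne.symm hq), mul_zero]
  · intro h; exact absurd (Finset.mem_univ _) h

end Q222.WT
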