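import Pool.Agent.Q222.WT.Upper

namespace Q222.WT

open Matrix

variable {σ : Type} {rk : σ → ℕ} {Q : Type} [Fintype Q] {A : WTA σ rk Q}

theorem csize_single {a : σ} (i : Fin (rk a)) (c : Fin (rk a) → Tree σ rk) :
    csize [⟨a, i, c⟩] + (c i).size = (Tree.node a c).size := by
  simp only [csize, List.map_cons, List.map_nil, List.sum_cons, List.sum_nil, Step.size, Tree.size]
  rw [← Finset.add_sum_erase _ _ (Finset.mem_univ i)]
  omega

open Classical in
/-- Summation over the nodes of the tree at which the run leaves `K`. -/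
theorem core (K : Set Q) (q : Q) {B E z : ℝ} (hB0 : 0 ≤ B) (hE0 : 0 ≤ E) (hz : 1 ≤ z)
    (hB : ∀ l, ∀ p ∈ K, (A.cmat l q p : ℝ) ≤ B * z ^ csize l)
    (hE : ∀ (a : σ) (c : Fin (rk a) → Tree σ rk), ∀ p ∈ K,
      (exitK A K a c p : ℝ) ≤ E * z ^ (Tree.node a c).size) (t : Tree σ rk) :
    ∀ l, (∑ p : Q, if p ∈ K then (A.cmat l q p : ℝ) * A.val t p else 0) ≤
      t.size * (Fintype.card Q * (B * E)) * z ^ (csize l + t.size) := by
  induction t with
  | node a c ih =>
    intro l
    set N := (Tree.node a c).size with hN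
    have h1 : ∀ p : Q, (if p ∈ K then (A.cmat l q p : ℝ) * A.val (.node a c) p else 0) ≤
        B * E * z ^ (csize l + N) + ∑ i : Fin (rk a), ∑ p' : Q, if p' ∈ K then
          (A.cmat l q p : ℝ) * A.cmat [⟨a, i, c⟩] p p' * A.val (c i) p' else 0 := by
      intro p
      have hpos : 0 ≤ ∑ i : Fin (rk a), ∑ p' : Q, (if p' ∈ K then
          (A.cmat l q p : ℝ) * A.cmat [⟨a, i, c⟩] p p' * A.val (c i) p' else 0) :=
        Finset.sum_nonneg fun i _ => Finset.sum_nonneg fun p' _ => by
          split_ifs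
          · positivity
          · exact le_rfl
      by_cases hp : p ∈ K
      · rw [if_pos hp]
        have h2 : (A.val (.node a c) p : ℝ) ≤ exitK A K a c p +
            ∑ i : Fin (rk a), ∑ p' : Q, if p' ∈ K then
              (A.cmat [⟨a, i, c⟩] p p' : ℝ) * A.val (c i) p' else 0 := by
          have h3 := val_le_exit (A := A) K a c p
          have h4 : (A.val (.node a c) p : ℝ) ≤ ((exitK A K a c p +
            ∑ i : Fin (rk a), ∑ p' : Q, if p' ∈ K then
              A.cmat [⟨a, i, c⟩] p p' * A.val (c i) p' else 0 : ℕ) : ℝ) := by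
            exact_mod_cast h3
          push_cast at h4
          exact h4
        calc (A.cmat l q p : ℝ) * A.val (.node a c) p ≤ (A.cmat l q p : ℝ) *
              (exitK A K a c p + ∑ i : Fin (rk a), ∑ p' : Q, if p' ∈ K then
              (A.cmat [⟨a, i, c⟩] p p' : ℝ) * A.val (c i) p' else 0) :=
              mul_le_mul_of_nonneg_left h2 (Nat.cast_nonneg _)
          _ = (A.cmat l q p : ℝ) * exitK A K a c p + ∑ i : Fin (rk a), ∑ p' : Q, (if p' ∈ K then
              (A.cmat l q p : ℝ) * A.cmat [⟨a, i, c⟩] p p' * A.val (c i) p' else 0) := by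
              rw [mul_add, Finset.mul_sum]
              congr 1
              refine Finset.sum_congr rfl fun i _ => ?_
              rw [Finset.mul_sum]
              refine Finset.sum_congr rfl fun p' _ => ?_
              split_ifs
              · ring
              · simp
          _ ≤ _ := by
              refine add_le_add ?_ le_rfl
              calc (A.cmat l q p : ℝ) * exitK A K a c p ≤ (B * z ^ csize l) * (E * z ^ N) :=
                    mul_le_mul (hB l p hp) (hE a c p hp) (Nat.cast_nonneg _) (by positivity)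
                _ = B * E * z ^ (csize l + N) := by rw [pow_add]; ring
      · rw [if_neg hp]
        have : 0 ≤ B * E * z ^ (csize l + N) := by positivity
        linarith
    refine le_trans (Finset.sum_le_sum fun p _ => h1 p) ?_
    rw [Finset.sum_add_distrib, Finset.sum_const, Finset.card_univ, nsmul_eq_mul]
    have h5 : ∑ p : Q, ∑ i : Fin (rk a), ∑ p' : Q, (if p' ∈ K then
          (A.cmat l q p : ℝ) * A.cmat [⟨a, i, c⟩] p p' * A.val (c i) p' else 0) ≤
        ∑ i : Fin (rk a), ((c i).size : ℝ) * (Fintype.card Q * (B * E)) * z ^ (csize l + N) := by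
      rw [Finset.sum_comm]
      refine Finset.sum_le_sum fun i _ => ?_
      have h6 := ih i (l ++ [⟨a, i, c⟩])
      rw [csize_append, add_assoc, csize_single i c] at h6
      refine le_trans (le_of_eq ?_) h6
      rw [Finset.sum_comm]
      refine Finset.sum_congr rfl fun p' _ => ?_
      by_cases hp' : p' ∈ K
      · simp only [if_pos hp']
        rw [WTA.cmat_append, Matrix.mul_apply]
        push_cast
        rw [Finset.sum_mul]
      · simp only [if_neg hp', Finset.sum_const_zero]
    refine le_trans (add_le_add le_rfl h5) (le_of_eq ?_)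
    rw [← Finset.sum_mul, ← Finset.sum_mul]
    have h7 : (N : ℝ) = 1 + ∑ i : Fin (rk a), ((c i).size : ℝ) := by
      rw [hN]; simp [Tree.size]
    rw [h7]
    ring

/-- A linear factor is absorbed by a slightly larger base. -/
theorem absorb {z y : ℝ} (hz : 0 < z) (hzy : z < y) : ∃ C : ℝ, 0 ≤ C ∧ ∀ n : ℕ,
    (n : ℝ) * z ^ n ≤ C * y ^ n := by
  have hy0 : 0 < y := hz.trans hzy
  have h1 : Filter.Tendsto (fun n : ℕ => (n : ℝ) * (z / y) ^ n) Filter.atTop (nhds 0) :=
    tendsto_self_mul_const_pow_of_lt_one (by positivity) ((div_lt_one (by linarith)).2 hzy)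
  obtain ⟨C, hC⟩ := h1.bddAbove_range
  refine ⟨max C 0, le_max_right _ _, fun n => ?_⟩
  have h2 : (n : ℝ) * (z / y) ^ n ≤ max C 0 := le_trans (hC ⟨n, rfl⟩) (le_max_left _ _)
  rw [div_pow] at h2
  have hy : 0 < y ^ n := pow_pos (by linarith) n
  calc (n : ℝ) * z ^ n = (n : ℝ) * (z ^ n / y ^ n) * y ^ n := by field_simp
    _ ≤ _ := mul_le_mul_of_nonneg_right h2 hy.le

/-- **Key theorem.** If no loop below `q` grows faster than `x` per node, then the values with
root state `q` are `O(y^{|t|})` for every `y > x`. -/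
theorem upper [Fintype σ] {x : ℝ} (hx : 1 ≤ x) (n : ℕ) : ∀ q : Q, (Reach A q).ncard ≤ n →
    (∀ p ∈ Reach A q, ∀ l, (A.cmat l p p : ℝ) ≤ x ^ csize l) →
    ∀ y, x < y → ∃ C : ℝ, 0 ≤ C ∧ ∀ t, (A.val t q : ℝ) ≤ C * y ^ t.size := by
  classical
  induction n with
  | zero =>
    intro q hq _ y _
    have h0 : Reach A q = ∅ := (Set.ncard_eq_zero (Set.toFinite _)).1 (Nat.le_zero.1 hq)
    refine ⟨0, le_rfl, fun t => ?_⟩
    have : A.val t q = 0 := by
      by_contra h
      have := reach_self (A := A) ⟨t, h⟩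
      rw [h0] at this
      exact this
    rw [this]; simp
  | succ n ih =>
    intro q hq H y hy
    by_cases hprod : ∃ t, A.val t q ≠ 0
    swap
    · push Not at hprod
      refine ⟨0, le_rfl, fun t => ?_⟩
      rw [hprod t]; simp
    have hqq := reach_self hprod
    obtain ⟨z, hxz, hzy⟩ := exists_between hy
    have hz1 : 1 ≤ z := by linarith
    obtain ⟨K, hK⟩ : ∃ K : Set Q, ∀ p, p ∈ K ↔ (p ∈ Reach A q ∧ q ∈ Reach A p) :=
      ⟨{p | p ∈ Reach A q ∧ q ∈ Reach A p}, fun _ => Iff.rfl⟩
    -- states outside `K`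
    have hout : ∀ p : Q, ∃ C : ℝ, 0 ≤ C ∧ (p ∈ Reach A q → p ∉ K →
        ∀ t, (A.val t p : ℝ) ≤ C * z ^ t.size) := by
      intro p
      by_cases hp : p ∈ Reach A q ∧ p ∉ K
      · have hnq : q ∉ Reach A p := fun h => hp.2 ((hK p).2 ⟨hp.1, h⟩)
        have hss : Reach A p ⊂ Reach A q :=
          ⟨fun r hr => reach_trans hp.1 hr, fun h => hnq (h hqq)⟩
        have hcard : (Reach A p).ncard ≤ n := by
          have := Set.ncard_lt_ncard hss (Set.toFinite _)
          omega
        obtain ⟨C, hC0, hC⟩ := ih p hcard (fun r hr => H r (reach_trans hp.1 hr)) z hxz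
        exact ⟨C, hC0, fun _ _ => hC⟩
      · exact ⟨0, le_rfl, fun h1 h2 => absurd ⟨h1, h2⟩ hp⟩
    choose C hC0 hC using hout
    have hb : ∀ p ∈ Reach A q, p ∉ K → ∀ t, (A.val t p : ℝ) ≤ (1 + ∑ r, C r) * z ^ t.size := by
      intro p h1 h2 t
      refine le_trans (hC p h1 h2 t) (mul_le_mul_of_nonneg_right ?_ (by positivity))
      have : C p ≤ ∑ r, C r := Finset.single_le_sum (fun r _ => hC0 r) (Finset.mem_univ p)
      linarith
    have hsum : 0 ≤ ∑ r, C r := Finset.sum_nonneg fun r _ => hC0 r
    obtain ⟨E, hE0, hE⟩ := exit_le (A := A) (K := K) (q := q) (C := 1 + ∑ r, C r) (z := z)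
      (by linarith) hz1 hb
    -- contexts from `q` into `K`
    have hin : ∀ p : Q, ∃ d : ℕ, p ∈ K → ∀ l, (A.cmat l q p : ℝ) ≤ x ^ (csize l + d) := by
      intro p
      by_cases hp : p ∈ K
      · obtain ⟨hp1, -, m, hm⟩ := (hK p).1 hp
        refine ⟨csize m, fun _ l => ?_⟩
        rw [← csize_append]
        refine le_trans ?_ (H q hqq (l ++ m))
        have h1 := A.cmat_le l m q p q
        have h2 : A.cmat l q p ≤ A.cmat l q p * A.cmat m p q :=
          Nat.le_mul_of_pos_right _ (Nat.pos_of_ne_zero hm)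
        exact_mod_cast le_trans h2 h1
      · exact ⟨0, fun h => absurd h hp⟩
    choose d hd using hin
    set D := ∑ r, d r with hD
    have hB : ∀ l, ∀ p ∈ K, (A.cmat l q p : ℝ) ≤ x ^ D * z ^ csize l := by
      intro l p hp
      refine le_trans (hd p hp l) ?_
      rw [pow_add, mul_comm]
      apply mul_le_mul
      · apply pow_le_pow_right₀ hx
        exact Finset.single_le_sum (f := d) (fun _ _ => Nat.zero_le _) (Finset.mem_univ p)
      · exact pow_le_pow_left₀ (by linarith) hxz.le _
      · positivity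
      · positivity
    have hcore := core (A := A) K q (B := x ^ D) (E := E) (z := z) (by positivity) hE0 hz1 hB
      (fun a c p hp => hE a c p ((hK p).1 hp).1)
    obtain ⟨C', hC'0, hC'⟩ := absorb (z := z) (y := y) (by linarith) hzy
    refine ⟨C' * (Fintype.card Q * (x ^ D * E)), by positivity, fun t => ?_⟩
    have hqK : q ∈ K := (hK q).2 ⟨hqq, hqq⟩
    have h1 := hcore t []
    have h2 : (A.val t q : ℝ) ≤ ∑ p : Q, if p ∈ K then (A.cmat [] q p : ℝ) * A.val t p else 0 := by
      refine le_trans (le_of_eq ?_) (Finset.single_le_sum (f := fun p => if p ∈ K then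
        (A.cmat [] q p : ℝ) * A.val t p else 0) (fun p _ => ?_) (Finset.mem_univ q))
      · simp only [if_pos hqK]
        simp [WTA.cmat]
      · split_ifs
        · positivity
        · exact le_rfl
    refine le_trans h2 (le_trans h1 ?_)
    have h3 : csize ([] : List (Step σ rk)) = 0 := rfl
    rw [h3, Nat.zero_add]
    have h4 := hC' t.size
    have h5 : 0 ≤ (Fintype.card Q : ℝ) * (x ^ D * E) := by positivity
    calc (t.size : ℝ) * (Fintype.card Q * (x ^ D * E)) * z ^ t.size
        = ((t.size : ℝ) * z ^ t.size) * (Fintype.card Q * (x ^ D * E)) := by ring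
      _ ≤ (C' * y ^ t.size) * (Fintype.card Q * (x ^ D * E)) := mul_le_mul_of_nonneg_right h4 h5
      _ = _ := by ring

end Q222.WT
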