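import Pool.Agent.Q222.WT.Ctx

namespace Q222.WT

open Matrix

variable {σ : Type} {rk : σ → ℕ} {Q : Type} [Fintype Q] (A : WTA σ rk Q)

/-- Productive states reachable from `q` (read from the root downwards). -/
def Reach (q : Q) : Set Q := {p | (∃ t, A.val t p ≠ 0) ∧ ∃ l, A.cmat l q p ≠ 0}

variable {A}

theorem reach_trans {q p r : Q} (h1 : p ∈ Reach A q) (h2 : r ∈ Reach A p) : r ∈ Reach A q := by
  obtain ⟨-, l, hl⟩ := h1
  obtain ⟨h3, m, hm⟩ := h2
  refine ⟨h3, l ++ m, ?_⟩
  have := A.cmat_le l m q p r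
  have h4 : A.cmat l q p * A.cmat m p r ≠ 0 := Nat.mul_ne_zero hl hm
  omega

theorem reach_self {q : Q} (h : ∃ t, A.val t q ≠ 0) : q ∈ Reach A q := by
  classical
  exact ⟨h, [], by simp [WTA.cmat]⟩

/-- A child state of a productive transition is reachable. -/
theorem reach_child {p : Q} {a : σ} {f : Fin (rk a) → Q} {c : Fin (rk a) → Tree σ rk}
    (h : A.μ a f p * ∏ i, A.val (c i) (f i) ≠ 0) (j : Fin (rk a)) : f j ∈ Reach A p := by
  classical
  have h1 : A.μ a f p ≠ 0 := left_ne_zero_of_mul h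
  have h2 := Finset.prod_ne_zero_iff.1 (right_ne_zero_of_mul h)
  refine ⟨⟨c j, h2 j (Finset.mem_univ j)⟩, [⟨a, j, c⟩], ?_⟩
  have h3 : A.cmat [⟨a, j, c⟩] = A.mat ⟨a, j, c⟩ := by simp [WTA.cmat]
  rw [h3]
  have h4 : A.μ a f p * ∏ i ∈ Finset.univ.erase j, A.val (c i) (f i) ≤
      A.mat ⟨a, j, c⟩ p (f j) := by
    refine le_trans (le_of_eq ?_) (Finset.single_le_sum (fun _ _ => Nat.zero_le _)
      (Finset.mem_univ f))
    rw [if_pos rfl]
  have h5 : A.μ a f p * ∏ i ∈ Finset.univ.erase j, A.val (c i) (f i) ≠ 0 :=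
    mul_ne_zero h1 (Finset.prod_ne_zero_iff.2 fun i _ => h2 i (Finset.mem_univ i))
  omega

open Classical in
/-- Part of the value coming from transitions without child state in `K`. -/
noncomputable def exitK (A : WTA σ rk Q) (K : Set Q) (a : σ) (c : Fin (rk a) → Tree σ rk)
    (p : Q) : ℕ :=
  ∑ f : Fin (rk a) → Q, if ∀ j, f j ∉ K then A.μ a f p * ∏ i, A.val (c i) (f i) else 0

open Classical in
/-- The decomposition inequality. -/
theorem val_le_exit (K : Set Q) (a : σ) (c : Fin (rk a) → Tree σ rk) (p : Q) :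
    A.val (.node a c) p ≤ exitK A K a c p +
      ∑ i : Fin (rk a), ∑ p' : Q, if p' ∈ K then A.cmat [⟨a, i, c⟩] p p' * A.val (c i) p' else 0 := by
  have h1 : ∀ i : Fin (rk a), (∑ p' : Q, if p' ∈ K then
      A.cmat [⟨a, i, c⟩] p p' * A.val (c i) p' else 0) =
      ∑ f : Fin (rk a) → Q, if f i ∈ K then A.μ a f p * ∏ j, A.val (c j) (f j) else 0 := by
    intro i
    have h3 : A.cmat [⟨a, i, c⟩] = A.mat ⟨a, i, c⟩ := by simp [WTA.cmat]
    simp only [h3, WTA.mat, Finset.sum_mul]
    have h4 : ∀ p' : Q, (if p' ∈ K then ∑ f : Fin (rk a) → Q, (if f i = p' then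
        A.μ a f p * ∏ j ∈ Finset.univ.erase i, A.val (c j) (f j) else 0) * A.val (c i) p' else 0) =
        ∑ f : Fin (rk a) → Q, if f i = p' then (if f i ∈ K then
          A.μ a f p * ∏ j, A.val (c j) (f j) else 0) else 0 := by
      intro p'
      by_cases hp : p' ∈ K
      · rw [if_pos hp]
        refine Finset.sum_congr rfl fun f _ => ?_
        by_cases hf : f i = p'
        · rw [if_pos hf, if_pos hf, hf, if_pos hp, ← Finset.mul_prod_erase _ _ (Finset.mem_univ i),
            hf]
          ring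
        · rw [if_neg hf, if_neg hf, zero_mul]
      · rw [if_neg hp]
        symm
        refine Finset.sum_eq_zero fun f _ => ?_
        by_cases hf : f i = p'
        · rw [if_pos hf, hf, if_neg hp]
        · rw [if_neg hf]
    simp only [h4]
    rw [Finset.sum_comm]
    refine Finset.sum_congr rfl fun f _ => ?_
    rw [Finset.sum_ite_eq]
    simp
  simp only [h1]
  rw [Finset.sum_comm]
  simp only [WTA.val, exitK]
  rw [← Finset.sum_add_distrib]
  refine Finset.sum_le_sum fun f _ => ?_
  by_cases hf : ∀ j, f j ∉ K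
  · rw [if_pos hf]
    exact Nat.le_add_right _ _
  · push Not at hf
    obtain ⟨j, hj⟩ := hf
    refine le_trans ?_ (Nat.le_add_left _ _)
    refine le_trans (le_of_eq ?_) (Finset.single_le_sum (fun _ _ => Nat.zero_le _)
      (Finset.mem_univ j))
    rw [if_pos hj]

/-- Bound for the exit part. -/
theorem exit_le [Fintype σ] {K : Set Q} {q : Q} {C z : ℝ} (hC : 1 ≤ C) (hz : 1 ≤ z)
    (hb : ∀ p ∈ Reach A q, p ∉ K → ∀ t, (A.val t p : ℝ) ≤ C * z ^ t.size) :
    ∃ E : ℝ, 0 ≤ E ∧ ∀ (a : σ) (c : Fin (rk a) → Tree σ rk), ∀ p ∈ Reach A q,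
      (exitK A K a c p : ℝ) ≤ E * z ^ (Tree.node a c).size := by
  classical
  refine ⟨∑ a : σ, ∑ f : Fin (rk a) → Q, ∑ p : Q, (A.μ a f p : ℝ) * C ^ rk a, by positivity, ?_⟩
  intro a c p hp
  have h1 : ∀ f : Fin (rk a) → Q,
      ((if ∀ j, f j ∉ K then A.μ a f p * ∏ i, A.val (c i) (f i) else 0 : ℕ) : ℝ) ≤
        (A.μ a f p : ℝ) * C ^ rk a * z ^ (Tree.node a c).size := by
    intro f
    have hpos : 0 ≤ (A.μ a f p : ℝ) * C ^ rk a * z ^ (Tree.node a c).size := by positivity
    by_cases hf : ∀ j, f j ∉ K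
    · rw [if_pos hf]
      by_cases h0 : A.μ a f p * ∏ i, A.val (c i) (f i) = 0
      · rw [h0]; simpa using hpos
      · push_cast
        rw [mul_assoc]
        apply mul_le_mul_of_nonneg_left _ (Nat.cast_nonneg _)
        calc (∏ i, (A.val (c i) (f i) : ℝ)) ≤ ∏ i : Fin (rk a), (C * z ^ (c i).size) :=
              Finset.prod_le_prod (fun _ _ => Nat.cast_nonneg _)
                fun i _ => hb (f i) (reach_trans hp (reach_child h0 i)) (hf i) (c i)
          _ = C ^ rk a * z ^ (∑ i, (c i).size) := by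
              rw [Finset.prod_mul_distrib, Finset.prod_const, Finset.card_univ, Fintype.card_fin,
                Finset.prod_pow_eq_pow_sum]
          _ ≤ C ^ rk a * z ^ (Tree.node a c).size := by
              apply mul_le_mul_of_nonneg_left _ (by positivity)
              apply pow_le_pow_right₀ hz
              simp only [Tree.size]; omega
    · rw [if_neg hf]; simpa using hpos
  calc (exitK A K a c p : ℝ) ≤ ∑ f : Fin (rk a) → Q, (A.μ a f p : ℝ) * C ^ rk a *
        z ^ (Tree.node a c).size := by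
          unfold exitK
          push_cast [Nat.cast_sum]
          refine Finset.sum_le_sum fun f _ => ?_
          have := h1 f
          push_cast at this
          exact this
    _ = (∑ f : Fin (rk a) → Q, (A.μ a f p : ℝ) * C ^ rk a) * z ^ (Tree.node a c).size := by
          rw [Finset.sum_mul]
    _ ≤ _ := by
          apply mul_le_mul_of_nonneg_right _ (by positivity)
          calc ∑ f : Fin (rk a) → Q, (A.μ a f p : ℝ) * C ^ rk a
              ≤ ∑ f : Fin (rk a) → Q, ∑ p : Q, (A.μ a f p : ℝ) * C ^ rk a :=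
                Finset.sum_le_sum fun f _ => Finset.single_le_sum
                  (f := fun p => (A.μ a f p : ℝ) * C ^ rk a)
                  (fun _ _ => by positivity) (Finset.mem_univ p)
            _ ≤ _ := Finset.single_le_sum
                (f := fun a => ∑ f : Fin (rk a) → Q, ∑ p : Q, (A.μ a f p : ℝ) * C ^ rk a)
                (fun _ _ => by positivity) (Finset.mem_univ a)

end Q222.WT
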